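import Pool.Agent.Q226.FL2.OneDefs

/-!
# Graphs with tagged edges (edge indicators)

The input has a bit for each position `(e, k)`, where `e` is a pair of vertices and `k < K` is a tag,
which tells whether there is an edge `e` with the tag `k`.
-/

set_option autoImplicit false

namespace Pool.Agent.Q226.TRF

/-- no two parallel edges: at most one tag for each pair of vertices -/
def NoParallelEdges {n K : ℕ} (x : Sym2 (Fin n) × Fin K → Bool) : Prop :=
  ∀ e k k', x (e, k) = true → x (e, k') = true → k = k'

/-- the graph, without the tags (loops are ignored) -/
def graph {n K : ℕ} (x : Sym2 (Fin n) × Fin K → Bool) : SimpleGraph (Fin n) :=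
  SimpleGraph.fromEdgeSet {e | ∃ k, x (e, k) = true}

end Pool.Agent.Q226.TRF
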