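import Pool.Agent.Q226.TRF.Defs
import Pool.Agent.Q226.FL2.One2
import Pool.Agent.Q226.HLT.Main
import Pool.Agent.H559R9.Tri

/-! # Triangle detection with unreliable negations -/

set_option autoImplicit false

open Finset Filter

namespace Pool.Agent.Q226.TRF

open Pool.Agent.H520R2.NM Pool.Agent.Q226.FL2 Pool.Agent.Q226.FLT

variable {n K : ℕ}

lemma noParallel_host (t : Sym2 (Fin n) → Fin K) (M : Sym2 (Fin n) → Bool) :
    NoParallelEdges (host t M) := by
  intro e k k' h h'
  unfold host at h h'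
  simp only [Bool.and_eq_true, decide_eq_true_eq] at h h'
  rw [h.2, h'.2]

lemma graph_host (t : Sym2 (Fin n) → Fin K) (M : Sym2 (Fin n) → Bool) :
    graph (host t M) = SimpleGraph.fromEdgeSet {e | M e = true} := by
  unfold graph host
  congr 1
  ext e
  simp

lemma card_host (t : Sym2 (Fin n) → Fin K) (M : Sym2 (Fin n) → Bool) :
    (univ.filter (fun p => host t M p = true)).card = (univ.filter (fun e => M e = true)).card := by
  symm
  refine card_bij (fun e _ => (e, t e)) ?_ ?_ ?_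
  · intro e he
    rw [mem_filter] at he ⊢
    refine ⟨mem_univ _, ?_⟩
    unfold host
    simp [he.2]
  · intro e _ e' _ h
    exact (Prod.mk.inj h).1
  · rintro ⟨e, k⟩ hp
    rw [mem_filter] at hp
    have h := hp.2
    unfold host at h
    simp only [Bool.and_eq_true, decide_eq_true_eq] at h
    refine ⟨e, mem_filter.mpr ⟨mem_univ _, h.1⟩, ?_⟩
    rw [h.2]

open Classical in
theorem main (θ : ℝ) (hθ : 0 < θ) (hθ2 : θ < 3 / 2) :
    ∀ᶠ m : ℕ in atTop, ∀ n : ℕ, m ≤ n ^ 2 → ∀ D K : ℕ, 1 ≤ D →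
      D * Real.log (40 * n ^ 2) ≤ K →
      ∀ (Ω : Type) [Fintype Ω] [Nonempty Ω] (N : Ω → ℕ)
        (C : ∀ ω, Circuit ((Sym2 (Fin n) × Fin K) × Bool) (N ω))
        (out : ∀ ω, Wire ((Sym2 (Fin n) × Fin K) × Bool) (N ω)),
      (∀ ω, (C ω).fanins = []) → (∀ ω, ((C ω).size : ℝ) < (m : ℝ) ^ θ) →
      ∃ x : Sym2 (Fin n) × Fin K → Bool, NoParallelEdges x ∧
        (univ.filter (fun p => x p = true)).card ≤ m ∧
        ((¬ (graph x).CliqueFree 3 ∧
          faultyProbability (fun ω y => (out ω).eval y ((C ω).vals y) = true) D x < 2 / 3) ∨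
        ((graph x).CliqueFree 3 ∧
          1 / 3 < probability (fun ω y => (out ω).eval y ((C ω).vals y) = true) x)) := by
  obtain ⟨α, hα, h⟩ := Pool.Agent.H559R9.tri_sparse 0 θ le_rfl hθ (by linarith)
  filter_upwards [h, HLT.small_rpow hα, eventually_ge_atTop 1] with m hm hsmall hm1
  intro n hmn D K hD hK Ω _ _ N C out hfan hsz
  obtain ⟨-, h2⟩ := hm n hmn
  have hn1 : 1 ≤ n := by
    rcases Nat.eq_zero_or_pos n with h0 | h0
    · rw [h0] at hmn
      simp at hmn
      omega
    · exact h0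
  have hnR : (1 : ℝ) ≤ n := by exact_mod_cast hn1
  have hDR : (1 : ℝ) ≤ D := by exact_mod_cast hD
  have hcard : Fintype.card (Sym2 (Fin n)) ≤ n ^ 2 := by
    rw [Sym2.card, Fintype.card_fin, Nat.choose_two_right]
    apply Nat.div_le_of_le_mul
    have h1 : n + 1 - 1 = n := by omega
    rw [h1]
    nlinarith
  have hcard0 : 0 < Fintype.card (Sym2 (Fin n)) := by
    rw [Sym2.card, Fintype.card_fin]
    exact Nat.choose_pos (by omega)
  have hcardR : (0 : ℝ) < Fintype.card (Sym2 (Fin n)) := by exact_mod_cast hcard0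
  have hlog : Real.log (40 * Fintype.card (Sym2 (Fin n))) ≤ Real.log (40 * n ^ 2) := by
    apply Real.log_le_log (by positivity)
    have : (Fintype.card (Sym2 (Fin n)) : ℝ) ≤ n ^ 2 := by exact_mod_cast hcard
    linarith
  have hK' : D * Real.log (40 * Fintype.card (Sym2 (Fin n))) ≤ K :=
    (mul_le_mul_of_nonneg_left hlog (by linarith)).trans hK
  have hK0 : 0 < K := by
    have h1 : 0 < Real.log (40 * n ^ 2) := Real.log_pos (by nlinarith)
    have h3 : (0 : ℝ) < K := lt_of_lt_of_le (by positivity) hK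
    exact_mod_cast h3
  obtain ⟨M, hAM, t, hM⟩ := nm_lower_one hD hK0 hcard0 hK'
    (fun M => ¬ (SimpleGraph.fromEdgeSet {e | M e = true}).CliqueFree 3)
    (fun M => (univ.filter (fun e => M e = true)).card ≤ m) (fun s => (s : ℝ) < (m : ℝ) ^ θ)
    (1 / 2 + (m : ℝ) ^ (-α)) (by linarith)
    (fun Ω' _ w hw hw1 N' C' out' hf hS => by
      obtain ⟨M, hM1, hM2⟩ := h2 Ω' w hw hw1 N' C' out' (fun r => by
        rw [hf r]
        simp) (fun r => by
        rw [hf r]
        simpa using hS r)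
      exact ⟨M, hM1, by convert hM2⟩) Ω N C out hfan hsz
  refine ⟨host t M, noParallel_host t M, ?_, ?_⟩
  · rw [card_host]
    exact hAM
  · rw [graph_host]
    rcases hM with hM | hM
    · exact Or.inl hM
    · exact Or.inr ⟨not_not.mp hM.1, hM.2⟩

end Pool.Agent.Q226.TRF
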